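import Pool.Agent.H60.AP.Main

/-!
Pairs of coefficients `(b, c)` for which `a + b e + c π` cannot be small: some multiple of `b e` is
very close to an integer, or some multiple of `c π` is close to an integer.  The two inputs are a
polynomial irrationality measure of `π` (exponent 24, from Apéry's approximations to `ζ(2)`, proved
in `Pool/Agent/H60/AP`) and the measure of `e`.
-/

namespace Pool.Agent.Results.MP_58e087_nt.ExcludedPairs

/-- The integers `1, 1, 7, 71, 1001, 18089, ...` : `q 0 = q 1 = 1` and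
`q (n + 2) = (4 n + 6) q (n + 1) + q n`. -/
def q : ℕ → ℕ
  | 0 => 1
  | 1 => 1
  | (n + 2) => (4 * n + 6) * q (n + 1) + q n

/-- The distance from the real number `x` to the nearest integer. -/
noncomputable def dist1 (x : ℝ) : ℝ := |x - round x|

lemma q_eq (n : ℕ) : ((q n : ℕ) : ℤ) = H3EP.qe n := by
  induction n using Nat.strong_induction_on with
  | _ n ih =>
    match n, ih with
    | 0, _ => simp [q, H3EP.qe]
    | 1, _ => simp [q, H3EP.qe]
    | (n + 2), ih =>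
      rw [H3EP.qe_succ_succ, ← ih (n + 1) (by omega), ← ih n (by omega)]
      simp [q]

/-- There is a constant `C > 0` such that for all integers `a, b, c` with `b, c ≠ 0` and all
`m ≥ 1`: (1) if `‖m b e‖ ≤ C (m|c|)^(-23)` then `|a + b e + c π| ≥ C m^(-24) |c|^(-23)`;
(2) if `‖m c π‖ ≤ C / (m|b| log (m|b| + 2))` then
`|a + b e + c π| ≥ C / (m² |b| log (m|b| + 2))`; (3) the conclusion of (1) holds if
`m b = k q_n` with `|k| (m|c|)^23 ≤ C q_{n+1}`. -/
theorem result : ∃ C : ℝ, 0 < C ∧ ∀ a b c : ℤ, b ≠ 0 → c ≠ 0 → ∀ m : ℕ, 1 ≤ m →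
    (dist1 (m * b * Real.exp 1) ≤ C / ((m : ℝ) * |(c : ℝ)|) ^ 23 →
      C / ((m : ℝ) ^ 24 * |(c : ℝ)| ^ 23) ≤ |(a : ℝ) + b * Real.exp 1 + c * Real.pi|) ∧
    (dist1 (m * c * Real.pi) ≤ C / ((m : ℝ) * |(b : ℝ)| * Real.log (m * |(b : ℝ)| + 2)) →
      C / ((m : ℝ) ^ 2 * |(b : ℝ)| * Real.log (m * |(b : ℝ)| + 2)) ≤
        |(a : ℝ) + b * Real.exp 1 + c * Real.pi|) ∧
    (∀ (n : ℕ) (k : ℤ), (m : ℤ) * b = k * q n →
      |(k : ℝ)| * ((m : ℝ) * |(c : ℝ)|) ^ 23 ≤ C * (q (n + 1) : ℝ) →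
      C / ((m : ℝ) ^ 24 * |(c : ℝ)| ^ 23) ≤ |(a : ℝ) + b * Real.exp 1 + c * Real.pi|) := by
  obtain ⟨C, hC, h⟩ := Pool.Agent.H60.AP.main_thm
  refine ⟨C, hC, fun a b c hb hc m hm => ⟨(h a b c hb hc m hm).1, (h a b c hb hc m hm).2.1,
    fun n k hk hkc => (h a b c hb hc m hm).2.2 n k ?_ ?_⟩⟩
  · rw [hk, q_eq]
  · have e : ((H3EP.qe (n + 1) : ℤ) : ℝ) = (q (n + 1) : ℝ) := by
      rw [← q_eq]
      simp
    rw [e]
    exact hkc

end Pool.Agent.Results.MP_58e087_nt.ExcludedPairs
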