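import Pool.Agent.H3.EP.Criterion

/-!
A gap criterion for the linear independence of `1, e, π` over `ℚ`, in terms of the distances to the
nearest integers of the numbers `c * q_n * π`, where `q = 1, 1, 7, 71, 1001, ...` are the
denominators of the diagonal Padé approximants of `e`.
-/

namespace Pool.Agent.Results.MP_58e087_nt.GapCriterion

open Filter

/-- The integers `1, 1, 7, 71, 1001, 18089, ...` : `q 0 = q 1 = 1` and
`q (n + 2) = (4 n + 6) q (n + 1) + q n`. -/
def q : ℕ → ℕ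
  | 0 => 1
  | 1 => 1
  | (n + 2) => (4 * n + 6) * q (n + 1) + q n

/-- The distance of a real number to the nearest integer. -/
noncomputable def dist1 (x : ℝ) : ℝ := |x - round x|

lemma q_eq (n : ℕ) : ((q n : ℕ) : ℝ) = (H3EP.qe n : ℝ) := by
  have : ((q n : ℕ) : ℤ) = H3EP.qe n := by
    induction n using Nat.strong_induction_on with
    | _ n ih =>
      match n, ih with
      | 0, _ => simp [q, H3EP.qe]
      | 1, _ => simp [q, H3EP.qe]
      | (n + 2), ih =>
        rw [H3EP.qe_succ_succ, ← ih (n + 1) (by omega), ← ih n (by omega)]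
        simp [q]
  exact_mod_cast this

/-- The numbers `1, e, π` are linearly dependent over `ℚ` if and only if for some integer `c ≥ 1`
one has `‖c q_n π‖ ≤ 1/(4n+5)` for all large `n`, if and only if for some integer `c ≥ 1` one has
`‖c q_n π‖ ≤ K / q_{n+1}` for all `n` (so nothing lies between the two rates). -/
theorem result :
    [¬ LinearIndependent ℚ ![(1 : ℝ), Real.exp 1, Real.pi],
     ∃ c : ℕ, 0 < c ∧ ∀ᶠ n : ℕ in atTop, dist1 (c * q n * Real.pi) ≤ 1 / (4 * n + 5),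
     ∃ c : ℕ, 0 < c ∧ ∃ K : ℝ, ∀ n : ℕ, dist1 (c * q n * Real.pi) ≤ K / q (n + 1)].TFAE := by
  tfae_have 1 → 3 := by
    intro h
    obtain ⟨a, b, c, hc, hrel⟩ := (H3EP.not_li_iff Real.pi).mp h
    obtain ⟨c', rfl⟩ := Int.eq_ofNat_of_zero_le hc.le
    refine ⟨c', by exact_mod_cast hc, |(b:ℝ)| * 2, ?_⟩
    intro n
    have h1 := H3EP.small_of_rel Real.pi a b c' hrel n
    have h2 := H3EP.J_mul_qe_le n
    have hq : (0:ℝ) < H3EP.qe (n + 1) := by exact_mod_cast H3EP.qe_pos (n + 1)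
    rw [q_eq, q_eq, le_div_iff₀ hq]
    have h3 : dist1 (c' * H3EP.qe n * Real.pi) ≤ |(b:ℝ)| * H3EP.J n := by
      unfold dist1
      have := h1
      unfold H3EP.sd at this
      push_cast at this
      exact this
    calc dist1 (c' * H3EP.qe n * Real.pi) * H3EP.qe (n + 1)
        ≤ |(b:ℝ)| * H3EP.J n * H3EP.qe (n + 1) := mul_le_mul_of_nonneg_right h3 hq.le
      _ = |(b:ℝ)| * (H3EP.J n * H3EP.qe (n + 1)) := by ring
      _ ≤ |(b:ℝ)| * 2 := mul_le_mul_of_nonneg_left h2 (abs_nonneg _)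
  tfae_have 3 → 2 := by
    rintro ⟨c, hc, K, hK⟩
    refine ⟨c, hc, ?_⟩
    -- K / q (n+1) ≤ 1/(4n+5) eventually
    have h1 : ∀ᶠ n : ℕ in atTop, (4 * (n:ℝ) + 5) * |K| ≤ 2 ^ n := by
      have h2 : Tendsto (fun n : ℕ => (n:ℝ) ^ 1 / (2:ℝ) ^ n) atTop (nhds 0) :=
        tendsto_pow_const_div_const_pow_of_one_lt 1 (by norm_num)
      have h3 : Tendsto (fun n : ℕ => (1:ℝ) / (2:ℝ) ^ n) atTop (nhds 0) := by
        have := tendsto_pow_const_div_const_pow_of_one_lt 0 (show (1:ℝ) < 2 by norm_num)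
        simpa using this
      have h4 : Tendsto (fun n : ℕ => 4 * |K| * ((n:ℝ) ^ 1 / (2:ℝ) ^ n) + 5 * |K| * (1 / (2:ℝ) ^ n))
          atTop (nhds (4 * |K| * 0 + 5 * |K| * 0)) := (h2.const_mul _).add (h3.const_mul _)
      rw [mul_zero, mul_zero, add_zero] at h4
      filter_upwards [h4.eventually_lt_const (show (0:ℝ) < 1 by norm_num)] with n hn
      have hp : (0:ℝ) < 2 ^ n := by positivity
      have e : 4 * |K| * ((n:ℝ) ^ 1 / (2:ℝ) ^ n) + 5 * |K| * (1 / (2:ℝ) ^ n)
          = (4 * (n:ℝ) + 5) * |K| / 2 ^ n := by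
        field_simp
      rw [e, div_lt_one hp] at hn
      exact hn.le
    filter_upwards [h1] with n hn
    refine (hK n).trans ?_
    have hq : (2:ℝ) ^ n ≤ q (n + 1) := by
      rw [q_eq]
      exact_mod_cast H3EP.two_pow_le_qe n
    have hp : (0:ℝ) < 2 ^ n := by positivity
    rw [div_le_div_iff₀ (by linarith) (by positivity)]
    have hn5 : (0:ℝ) < 4 * n + 5 := by positivity
    have := le_abs_self K
    nlinarith
  tfae_have 2 → 1 := by
    rintro ⟨c, hc, h⟩
    have h' : ∀ᶠ n : ℕ in atTop, |H3EP.sd (H3EP.qe n * (c * Real.pi))| ≤ 1 / (4 * n + 5) := by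
      filter_upwards [h] with n hn
      have e : (H3EP.qe n : ℝ) * (c * Real.pi) = c * q n * Real.pi := by
        rw [q_eq]; ring
      rw [e]
      exact hn
    obtain ⟨l, m, hlm⟩ := H3EP.rel_of_threshold _ h'
    rw [H3EP.not_li_iff]
    refine ⟨-m, -l, 2 * c, by positivity, ?_⟩
    push_cast
    linarith
  tfae_finish

end Pool.Agent.Results.MP_58e087_nt.GapCriterion
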