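import Pool.Agent.H3.EP.Gap

/-!
Two linearly independent integer linear forms in `1, e, π` cannot both be very small.
-/

namespace Pool.Agent.Results.MP_58e087_nt.TwoForms

/-- The value `v 0 + v 1 * e + v 2 * π` of an integer linear form at `(1, e, π)`. -/
noncomputable def L (v : Fin 3 → ℤ) : ℝ := v 0 + v 1 * Real.exp 1 + v 2 * Real.pi

/-- If `v, v'` are linearly independent integer vectors of heights at most `H` and `H'`, where
`3 ≤ H ≤ H'`, then `H' |L v| + H |L v'| ≥ 1 / (800 H H' log (H H'))`. -/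
theorem result (H H' : ℝ) (hH : 3 ≤ H) (hHH' : H ≤ H') (v v' : Fin 3 → ℤ)
    (hv : ∀ i, |(v i : ℝ)| ≤ H) (hv' : ∀ i, |(v' i : ℝ)| ≤ H')
    (hind : LinearIndependent ℤ ![v, v']) :
    1 / (800 * H * H' * Real.log (H * H')) ≤ H' * |L v| + H * |L v'| := by
  unfold L
  apply H3EP.two_forms Real.pi H H' hH hHH' (v 0) (v 1) (v 2) (v' 0) (v' 1) (v' 2)
    (hv 0) (hv 1) (hv 2) (hv' 1) (hv' 2)
  by_contra hcon
  push Not at hcon
  obtain ⟨h01, h02, h12⟩ := hcon
  rw [LinearIndependent.pair_iff] at hind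
  -- for every index i: v' i • v - v i • v' = 0
  have key : ∀ i j : Fin 3, v' i * v j - v i * v' j = 0 := by
    intro i j
    fin_cases i <;> fin_cases j <;> simp <;> linarith
  have hz : ∀ i, v i = 0 ∧ v' i = 0 := by
    intro i
    have h := hind (v' i) (-(v i)) (by
      ext j
      have := key i j
      simp only [Pi.add_apply, Pi.smul_apply, smul_eq_mul, Pi.zero_apply]
      linarith)
    exact ⟨by linarith [h.2], h.1⟩
  have h := hind 1 0 (by
    ext j
    simp [(hz j).1])
  exact one_ne_zero h.1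

end Pool.Agent.Results.MP_58e087_nt.TwoForms
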