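import Mathlib
import Pool.Agent.H52.WG.Main

/-!
# Linear dependence of `1, e, π` and weighted uniform approximation

The definitions `dist1`, `OneForm`, `PairNear`, `PairOn`, `FormOn` are in
`Pool/Agent/H52/WG/Defs.lean`; they are used here for `y = π`.
-/

set_option autoImplicit false

namespace Pool.Agent.Results.MP_58e087_nt.WeightedExponents

open Pool.Agent.H52.WG

/-- The conditions on a range `[X, Y]` of heights: one small linear form; simultaneous
approximation with error `X / Q`; weighted simultaneous approximation with exponents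
`lam, kap`; weighted linear forms with exponents `1 - kap, 1 - lam`. -/
def conditions (lam kap : ℝ) : Set (ℝ → ℝ → Prop) :=
  {OneForm Real.pi, PairNear Real.pi, PairOn Real.pi lam kap, FormOn Real.pi lam kap}

/-- Global form, local form and exponent form of the criterion. -/
theorem result (lam kap : ℝ) (hl0 : 0 < lam) (hl1 : lam < 1) (hk0 : 0 < kap) (hk1 : kap < 1)
    (h1 : 1 - lam < lam * kap) (h2 : 1 - kap < lam ^ 2) :
    (∀ A ∈ conditions lam kap, ¬ LinearIndependent ℚ ![(1 : ℝ), Real.exp 1, Real.pi] ↔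
      ∃ X : ℝ, 1 ≤ X ∧ ∀ Y : ℝ, X ≤ Y → A X Y) ∧
    (∃ C : ℝ, 1 ≤ C ∧ ∀ X Y : ℝ, C ≤ X → X ^ C ≤ Y → ∀ A ∈ conditions lam kap,
      ∀ B ∈ conditions lam kap, A X Y → B (X ^ C) (Y ^ (1 / C))) ∧
    (∀ A ∈ conditions lam kap,
      (∃ w : ℝ, ∀ (v : Fin 3 → ℤ) (X : ℝ), v ≠ 0 → 2 ≤ X → (∀ i, |(v i : ℝ)| ≤ X) →
        X ^ (-w) ≤ |v 0 + v 1 * Real.exp 1 + v 2 * Real.pi|) ↔
      ∃ W : ℝ, ∀ X : ℝ, W ≤ X → ¬ A X (X ^ W)) :=
  ⟨fun A hA => global_equiv Real.pi lam kap hl0 hl1 hk0 hk1 h1 h2 A hA,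
    local_equiv Real.pi lam kap hl0 hl1 hk0 hk1 h1 h2,
    fun A hA => measure_equiv Real.pi lam kap hl0 hl1 hk0 hk1 h1 h2 A hA⟩

end Pool.Agent.Results.MP_58e087_nt.WeightedExponents
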